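import Mathlib

set_option autoImplicit false
open Filter
open scoped Topology

namespace Pool.Agent.Results.MP_6f70ff_gt.Line

section Defs
variable {V W : Type}

def Separated (G : SimpleGraph V) (k : ℕ) (N : Set V) : Prop :=
  ∀ u ∈ N, ∀ v ∈ N, u ≠ v → k ≤ G.dist u v

/-- A `k`-net: a maximal `k`-separated set. -/
def IsNet (G : SimpleGraph V) (k : ℕ) (N : Set V) : Prop := Maximal (Separated G k) N

/-- The `k`-net graph on `N`. -/
def netGraph (G : SimpleGraph V) (k : ℕ) (N : Set V) : SimpleGraph N where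
  Adj u v := 0 < G.dist u v ∧ G.dist u v ≤ 2 * k
  symm := ⟨fun u v h => by rwa [G.dist_comm]⟩
  loopless := ⟨fun u h => by simp at h⟩

def IsRoughIsometry (G : SimpleGraph V) (H : SimpleGraph W) (C : ℝ) (f : V → W) : Prop :=
  (∀ x y, C⁻¹ * H.dist (f x) (f y) - C ≤ G.dist x y ∧
    (G.dist x y : ℝ) ≤ C * H.dist (f x) (f y) + C) ∧ ∀ y, ∃ x, (H.dist (f x) y : ℝ) < C

noncomputable def Ck (G : SimpleGraph V) (k : ℕ) (N : Set V) : ℝ :=
  sInf {C : ℝ | 0 < C ∧ ∃ f, IsRoughIsometry G (netGraph G k N) C f}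

def SubScaleInvariant (G : SimpleGraph V) : Prop :=
  ∀ N : ℕ → Set V, (∀ k, 1 ≤ k → IsNet G k (N k)) →
    Tendsto (fun k => Ck G k (N k)) atTop (𝓝 1)

def VertexTransitive (G : SimpleGraph V) : Prop := ∀ u v, ∃ φ : G ≃g G, φ u = v

lemma lip_le {G : SimpleGraph V} (φ : V → ℤ) (h : ∀ u v, G.Adj u v → φ v ≤ φ u + 1) {u v : V}
    (hr : G.Reachable u v) : φ v ≤ φ u + G.dist u v := by
  obtain ⟨p, hp⟩ := hr.exists_walk_length_eq_dist
  rw [← hp]
  clear hp hr
  induction p with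
  | nil => simp
  | cons a p ih =>
    have := h _ _ a
    simp only [SimpleGraph.Walk.length_cons]
    push_cast; omega

lemma chain {G : SimpleGraph V} (f : ℤ → V) (h : ∀ i, G.Adj (f i) (f (i + 1))) (i : ℤ) (n : ℕ) :
    ∃ p : G.Walk (f i) (f (i + n)), p.length = n := by
  induction n with
  | zero => exact ⟨SimpleGraph.Walk.nil.copy rfl (by simp), by simp⟩
  | succ n ih =>
    obtain ⟨p, hp⟩ := ih
    exact ⟨(p.concat (h _)).copy rfl (by push_cast; rw [add_assoc]), by simp [hp]⟩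

lemma chain' {G : SimpleGraph V} (f : ℤ → V) (h : ∀ i, G.Adj (f i) (f (i + 1))) (i j : ℤ) :
    G.Reachable (f i) (f j) ∧ (G.dist (f i) (f j) : ℤ) ≤ |i - j| := by
  have key : ∀ i j : ℤ, i ≤ j → G.Reachable (f i) (f j) ∧ (G.dist (f i) (f j) : ℤ) ≤ j - i := by
    intro i j hij
    obtain ⟨n, rfl⟩ : ∃ n : ℕ, j = i + n := ⟨(j - i).toNat, by omega⟩
    obtain ⟨p, hp⟩ := chain f h i n
    refine ⟨⟨p⟩, ?_⟩
    have := G.dist_le p
    omega
  rcases le_total i j with h1 | h1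
  · have := key i j h1
    exact ⟨this.1, by rw [abs_sub_comm, abs_of_nonneg (by omega)]; exact this.2⟩
  · have := key j i h1
    exact ⟨this.1.symm, by rw [G.dist_comm, abs_of_nonneg (by omega)]; exact this.2⟩

end Defs

def Z : SimpleGraph ℤ where
  Adj a b := a + 1 = b ∨ b + 1 = a
  symm := ⟨fun _ _ h => h.symm⟩
  loopless := ⟨fun a h => by omega⟩

lemma Z_dist (a b : ℤ) : (Z.dist a b : ℤ) = |a - b| := by
  have h := chain' (G := Z) id (fun i => Or.inl rfl) a b
  have h1 := lip_le (G := Z) id (fun u v h => by rcases h with h | h <;> simp <;> omega) h.1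
  have h2 := lip_le (G := Z) id (fun u v h => by rcases h with h | h <;> simp <;> omega) h.1.symm
  rw [Z.dist_comm] at h2
  refine le_antisymm h.2 (abs_le.2 ?_)
  simp only [id] at h1 h2
  omega

section Net
variable {k : ℕ} {N : Set ℤ} (hk : 1 ≤ k) (hN : IsNet Z k N)
include hk hN

lemma sep {u v : ℤ} (hu : u ∈ N) (hv : v ∈ N) (h : u < v) : u + k ≤ v := by
  have := hN.1 u hu v hv h.ne
  have e := Z_dist u v
  rw [abs_sub_comm, abs_of_nonneg (by omega)] at e
  omega

lemma dense (x : ℤ) : ∃ n ∈ N, x - k < n ∧ n < x + k := by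
  by_contra h
  push Not at h
  have hs : Separated Z k (insert x N) := by
    have key : ∀ v ∈ N, k ≤ Z.dist x v := by
      intro v hv
      have e := Z_dist x v
      have := h v hv
      rcases abs_cases (x - v) with h1 | h1 <;> omega
    rintro u (rfl | hu) v (rfl | hv) huv
    · exact absurd rfl huv
    · exact key v hv
    · rw [Z.dist_comm]; exact key u hu
    · exact hN.1 u hu v hv huv
  have := hN.2 hs (Set.subset_insert x N) (Set.mem_insert x N)
  have := h x this (by omega)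
  omega

omit hk hN in
lemma adj_iff (u v : N) : (netGraph Z k N).Adj u v ↔ u ≠ v ∧ |(u : ℤ) - v| ≤ 2 * k := by
  have e := Z_dist u v
  show 0 < Z.dist u v ∧ Z.dist u v ≤ 2 * k ↔ _
  rw [← e, Ne, Subtype.ext_iff]
  rcases abs_cases ((u : ℤ) - v) with h1 | h1 <;> omega

lemma exR (x : N) : ∃ y : N, (x : ℤ) < y ∧ (y : ℤ) ≤ x + 2 * k ∧
    ∀ z : N, (z : ℤ) ≤ x + 2 * k → (z : ℤ) ≤ y := by
  obtain ⟨n, hn, h1, h2⟩ := dense hk hN (x + k)
  obtain ⟨m, ⟨hm, hm2⟩, hmax⟩ := Int.exists_greatest_of_bdd (P := fun z => z ∈ N ∧ z ≤ x + 2 * k)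
    ⟨x + 2 * k, fun z hz => hz.2⟩ ⟨n, hn, by omega⟩
  have := hmax n ⟨hn, by omega⟩
  exact ⟨⟨m, hm⟩, by simp; omega, hm2, fun z hz => hmax z ⟨z.2, hz⟩⟩

lemma exL (x : N) : ∃ y : N, (y : ℤ) < x ∧ (x : ℤ) - 2 * k ≤ y ∧
    ∀ z : N, (x : ℤ) - 2 * k ≤ z → (y : ℤ) ≤ z := by
  obtain ⟨n, hn, h1, h2⟩ := dense hk hN (x - k)
  obtain ⟨m, ⟨hm, hm2⟩, hmin⟩ := Int.exists_least_of_bdd (P := fun z => z ∈ N ∧ (x : ℤ) - 2 * k ≤ z)
    ⟨x - 2 * k, fun z hz => hz.2⟩ ⟨n, hn, by omega⟩
  have := hmin n ⟨hn, by omega⟩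
  exact ⟨⟨m, hm⟩, by simp; omega, hm2, fun z hz => hmin z ⟨z.2, hz⟩⟩

lemma exf : ∃ f : ℤ → N, (∀ i, (f i : ℤ) < f (i + 1) ∧ (f (i + 1) : ℤ) ≤ f i + 2 * k) ∧
    (∀ i, 0 ≤ i → ∀ z : N, (z : ℤ) ≤ f i + 2 * k → (z : ℤ) ≤ f (i + 1)) ∧
    (∀ i, i < 0 → ∀ z : N, (f (i + 1) : ℤ) - 2 * k ≤ z → (f i : ℤ) ≤ z) := by
  choose R hR using exR hk hN
  choose L hL using exL hk hN
  obtain ⟨o, ho, -⟩ := dense hk hN 0
  let f : ℤ → N := fun i => if 0 ≤ i then R^[i.toNat] ⟨o, ho⟩ else L^[(-i).toNat] ⟨o, ho⟩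
  have h1 : ∀ i, 0 ≤ i → f (i + 1) = R (f i) := by
    intro i hi
    simp only [f, if_pos hi, if_pos (by omega : 0 ≤ i + 1)]
    rw [show (i + 1).toNat = i.toNat + 1 by omega, Function.iterate_succ_apply']
  have h2 : ∀ i, i < 0 → f i = L (f (i + 1)) := by
    intro i hi
    simp only [f, if_neg (by omega : ¬ 0 ≤ i)]
    rw [show (-i).toNat = (-(i + 1)).toNat + 1 by omega, Function.iterate_succ_apply']
    split_ifs with h
    · rw [show i + 1 = 0 by omega]; rfl
    · rfl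
  refine ⟨f, fun i => ?_, fun i hi => ?_, fun i hi => ?_⟩
  · rcases le_or_gt 0 i with hi | hi
    · rw [h1 i hi]; exact ⟨(hR _).1, (hR _).2.1⟩
    · rw [h2 i hi]; have := hL (f (i + 1)); omega
  · rw [h1 i hi]; exact (hR _).2.2
  · rw [h2 i hi]; exact (hL _).2.2

lemma main : (netGraph Z k N).Connected ∧ ∃ f : ℤ → N,
    (∀ i j, ((netGraph Z k N).dist (f i) (f j) : ℤ) ≤ |i - j| ∧
      |i - j| ≤ (netGraph Z k N).dist (f i) (f j) + 1) ∧
    ∀ y, ∃ i, (netGraph Z k N).dist (f i) y ≤ 1 := by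
  obtain ⟨f, h1, h2, h3⟩ := exf hk hN
  have hmono : StrictMono (fun i => (f i : ℤ)) := strictMono_int_of_lt_succ (fun i => (h1 i).1)
  have hadj : ∀ i, (netGraph Z k N).Adj (f i) (f (i + 1)) := by
    intro i
    have := h1 i
    rw [adj_iff, Ne, Subtype.ext_iff, abs_le]; omega
  have hgrow : ∀ i j : ℤ, i ≤ j → (f i : ℤ) + (j - i) ≤ f j := by
    intro i j hij
    induction j, hij using Int.leInduction with
    | base => simp
    | succ j hj ih => have := (h1 j).1; omega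
  have hfl : ∀ y : N, ∃ i, (f i : ℤ) ≤ y ∧ (y : ℤ) < f (i + 1) := by
    intro y
    obtain ⟨i, hi, hmax⟩ := Int.exists_greatest_of_bdd (P := fun i => (f i : ℤ) ≤ y)
      ⟨|(y : ℤ) - f 0|, fun i hi => by
        rcases le_total 0 i with h | h
        · have := hgrow 0 i h; have := le_abs_self ((y : ℤ) - f 0); omega
        · exact h.trans (abs_nonneg _)⟩
      ⟨-|(y : ℤ) - f 0|, by
        have := hgrow (-|(y : ℤ) - f 0|) 0 (by simp); have := neg_abs_le ((y : ℤ) - f 0); omega⟩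
    refine ⟨i, hi, ?_⟩
    by_contra h
    have := hmax (i + 1) (not_lt.1 h); omega
  choose fl hfl using hfl
  have hnear : ∀ y : N, f (fl y) = y ∨ (netGraph Z k N).Adj (f (fl y)) y := by
    intro y
    by_cases h : f (fl y) = y
    · exact Or.inl h
    · right
      have := hfl y; have := h1 (fl y)
      rw [adj_iff, abs_le]; exact ⟨h, by omega, by omega⟩
  have hreach : ∀ y : N, (netGraph Z k N).Reachable (f (fl y)) y := by
    intro y
    rcases hnear y with h | h
    · rw [h]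
    · exact h.reachable
  have hconn : (netGraph Z k N).Connected := by
    haveI : Nonempty N := ⟨f 0⟩
    exact ⟨fun u v => ((hreach u).symm.trans (chain' f hadj _ _).1).trans (hreach v)⟩
  -- potential
  let φ : N → ℤ := fun y => if 0 ≤ fl y ∧ (f (fl y) : ℤ) < y then fl y + 1 else
    if 0 ≤ fl y then fl y else fl y + 1
  have hlt : ∀ i j, (f i : ℤ) < f j → i < j := fun i j h => hmono.lt_iff_lt.1 h
  have hle : ∀ i j, (f i : ℤ) ≤ f j → i ≤ j := fun i j h => hmono.le_iff_le.1 h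
  have hφ : ∀ u v, (netGraph Z k N).Adj u v → φ v ≤ φ u + 1 := by
    intro u v h
    rw [adj_iff, abs_le] at h
    obtain ⟨-, ha, hb⟩ := h
    have a1 := hfl u
    have a2 := hfl v
    by_cases hu : 0 ≤ fl u
    · by_cases hu2 : (f (fl u) : ℤ) < u
      · have b1 := h2 (fl u + 1) (by omega) v (by omega)
        have b2 := hle (fl v) (fl u + 1 + 1) (by omega)
        have b3 := hlt (fl v) (fl u + 1 + 1)
        simp only [φ]; split_ifs <;> omega
      · have b1 := h2 (fl u) hu v (by omega)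
        have b2 := hle (fl v) (fl u + 1) (by omega)
        have b3 := hlt (fl v) (fl u + 1)
        simp only [φ]; split_ifs <;> omega
    · by_cases hv : 0 ≤ fl v
      · have b0 := hmono.monotone hv
        have b1 := h3 (-1) (by omega) u (by simp only [neg_add_cancel] at *; omega)
        have b2 := hlt (-1) (fl u + 1) (by omega)
        have b3 : fl u = -1 := by omega
        have b4 := h2 0 le_rfl v (by rw [b3] at a1; simp only [neg_add_cancel] at a1; omega)
        have b5 := hle (fl v) (0 + 1) (by omega)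
        have b6 := hlt (fl v) (0 + 1)
        simp only [φ]; split_ifs <;> omega
      · have b1 := h3 (fl v - 1) (by omega) u (by rw [sub_add_cancel]; omega)
        have b2 := hlt (fl v - 1) (fl u + 1) (by omega)
        simp only [φ]; split_ifs <;> omega
  have hφf : ∀ i, i ≤ φ (f i) ∧ φ (f i) ≤ i + 1 := by
    intro i
    have a := hfl (f i)
    have b1 := hle _ _ a.1
    have b2 := hlt _ _ a.2
    have b3 : fl (f i) = i := by omega
    simp only [φ, b3]; split_ifs <;> omega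
  refine ⟨hconn, f, fun i j => ⟨(chain' f hadj i j).2, ?_⟩, fun y => ⟨fl y, ?_⟩⟩
  · have c1 := lip_le φ hφ (hconn (f i) (f j))
    have c2 := lip_le φ hφ (hconn (f j) (f i))
    rw [SimpleGraph.dist_comm] at c2
    have := hφf i; have := hφf j
    rw [abs_le]; omega
  · rcases hnear y with h | h
    · rw [h]; simp
    · exact (SimpleGraph.dist_eq_one_iff_adj.2 h).le

lemma Ck_eq : Ck Z k N = 1 := by
  obtain ⟨-, f, h1, h2⟩ := main hk hN
  have hup : ∀ C : ℝ, 1 < C → 0 < C ∧ ∃ f, IsRoughIsometry Z (netGraph Z k N) C f := by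
    intro C hC
    refine ⟨by linarith, f, fun x y => ?_, fun y => ?_⟩
    · have a := h1 x y
      rw [← Z_dist] at a
      have a1 : ((netGraph Z k N).dist (f x) (f y) : ℝ) ≤ Z.dist x y := by exact_mod_cast a.1
      have a2 : (Z.dist x y : ℝ) ≤ (netGraph Z k N).dist (f x) (f y) + 1 := by exact_mod_cast a.2
      have a3 : (0 : ℝ) ≤ (netGraph Z k N).dist (f x) (f y) := Nat.cast_nonneg _
      have a4 : C⁻¹ ≤ 1 := inv_le_one_of_one_le₀ hC.le
      constructor <;> nlinarith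
    · obtain ⟨i, hi⟩ := h2 y
      have : ((netGraph Z k N).dist (f i) y : ℝ) ≤ 1 := by exact_mod_cast hi
      exact ⟨i, by linarith⟩
  have hlow : ∀ C : ℝ, (0 < C ∧ ∃ f, IsRoughIsometry Z (netGraph Z k N) C f) → 1 ≤ C := by
    rintro C ⟨hC, g, hg, -⟩
    by_contra h
    push Not at h
    have hc : 0 < 1 - C ^ 2 := by nlinarith
    obtain ⟨n, hn⟩ := exists_nat_gt ((C ^ 3 + C) / (1 - C ^ 2))
    rw [div_lt_iff₀ hc] at hn
    obtain ⟨b1, b2⟩ := hg n 0
    have e : (Z.dist n 0 : ℝ) = n := by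
      have := Z_dist n 0
      simp only [sub_zero, Nat.abs_cast] at this
      exact_mod_cast this
    rw [e] at b1 b2
    have b3 : ((netGraph Z k N).dist (g n) (g 0) : ℝ) ≤ C * (n + C) := by
      rw [← inv_mul_le_iff₀ hC]; linarith
    nlinarith
  refine le_antisymm (le_of_forall_gt_imp_ge_of_dense fun C hC => csInf_le ⟨1, hlow⟩ (hup C hC))
    (le_csInf ⟨2, hup 2 (by norm_num)⟩ hlow)

end Net

theorem result : ∃ (V : Type) (G : SimpleGraph V), Infinite V ∧ G.Connected ∧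
    (∀ v, (G.neighborSet v).Finite) ∧ VertexTransitive G ∧
    (∀ k N, 1 ≤ k → IsNet G k N → (netGraph G k N).Connected ∧ Ck G k N = 1) ∧
    SubScaleInvariant G := by
  refine ⟨ℤ, Z, inferInstance, ⟨fun a b => (chain' (G := Z) id (fun i => Or.inl rfl) a b).1⟩,
    fun v => (Set.toFinite {v + 1, v - 1}).subset (fun w h => ?_), fun u v => ?_,
    fun k N hk hN => ⟨(main hk hN).1, Ck_eq hk hN⟩, fun N hN => ?_⟩
  · rcases h with h | h
    · left; omega
    · right; show w = v - 1; omega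
  · refine ⟨⟨Equiv.addRight (v - u), fun {a b} => ?_⟩, by simp⟩
    show (a + (v - u) + 1 = b + (v - u) ∨ b + (v - u) + 1 = a + (v - u)) ↔ (a + 1 = b ∨ b + 1 = a)
    omega
  · refine tendsto_const_nhds.congr' ?_
    filter_upwards [eventually_ge_atTop 1] with k hk
    exact (Ck_eq hk (hN k hk)).symm

end Pool.Agent.Results.MP_6f70ff_gt.Line
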